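import Mathlib

/-!
# Project CB: a consequence of Birkhoff's theorem
-/

set_option autoImplicit false

namespace Pool.Agent.Helper39.CB

open Finset

/-- a substochastic matrix is dominated by a doubly stochastic one -/
theorem exists_dominating {X : Type*} [Fintype X] [DecidableEq X] (M : Matrix X X ℝ)
    (h0 : ∀ x y, 0 ≤ M x y) (hr : ∀ x, ∑ y, M x y ≤ 1) (hc : ∀ y, ∑ x, M x y ≤ 1) :
    ∃ D ∈ doublyStochastic ℝ X, ∀ x y, M x y ≤ D x y := by
  set r : X → ℝ := fun x => 1 - ∑ y, M x y with hrd
  set c : X → ℝ := fun y => 1 - ∑ x, M x y with hcd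
  have r0 : ∀ x, 0 ≤ r x := fun x => by simp only [hrd]; linarith [hr x]
  have c0 : ∀ y, 0 ≤ c y := fun y => by simp only [hcd]; linarith [hc y]
  have hrc : ∑ x, r x = ∑ y, c y := by
    simp only [hrd, hcd, sum_sub_distrib]
    rw [sum_comm]
  set s : ℝ := ∑ x, r x with hs
  have s0 : 0 ≤ s := sum_nonneg fun x _ => r0 x
  by_cases hz : s = 0
  · have r1 : ∀ x, r x = 0 := fun x =>
      (sum_eq_zero_iff_of_nonneg (fun x _ => r0 x)).1 (hs ▸ hz) x (mem_univ x)
    have c1 : ∀ y, c y = 0 := fun y =>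
      (sum_eq_zero_iff_of_nonneg (fun x _ => c0 x)).1 (by rw [← hrc]; exact hs ▸ hz) y (mem_univ y)
    refine ⟨M, ?_, fun _ _ => le_rfl⟩
    rw [mem_doublyStochastic_iff_sum]
    refine ⟨h0, fun x => ?_, fun y => ?_⟩
    · have := r1 x
      simp only [hrd] at this
      linarith
    · have := c1 y
      simp only [hcd] at this
      linarith
  · have sp : 0 < s := lt_of_le_of_ne s0 (fun h => hz h.symm)
    refine ⟨fun x y => M x y + r x * c y / s, ?_, fun x y => ?_⟩
    · rw [mem_doublyStochastic_iff_sum]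
      refine ⟨fun x y => ?_, fun x => ?_, fun y => ?_⟩
      · exact add_nonneg (h0 x y) (div_nonneg (mul_nonneg (r0 x) (c0 y)) s0)
      · rw [sum_add_distrib, ← sum_div, ← mul_sum, ← hrc, mul_div_assoc, div_self hz, mul_one]
        simp only [hrd]
        ring
      · rw [sum_add_distrib, ← sum_div, ← sum_mul, ← hs, mul_comm, mul_div_assoc, div_self hz,
          mul_one]
        simp only [hcd]
        ring
    · have := div_nonneg (mul_nonneg (r0 x) (c0 y)) s0
      linarith

/-- A nonnegative weight has a permutation which is at least as good as a substochastic matrix. -/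
theorem exists_perm_ge {X : Type*} [Fintype X] [DecidableEq X] (M W : Matrix X X ℝ)
    (h0 : ∀ x y, 0 ≤ M x y) (hr : ∀ x, ∑ y, M x y ≤ 1) (hc : ∀ y, ∑ x, M x y ≤ 1)
    (hW : ∀ x y, 0 ≤ W x y) :
    ∃ σ : Equiv.Perm X, ∑ x, ∑ y, M x y * W x y ≤ ∑ x, W x (σ x) := by
  obtain ⟨D, hD, hMD⟩ := exists_dominating M h0 hr hc
  obtain ⟨w, hw0, hw1, hwD⟩ := exists_eq_sum_perm_of_mem_doublyStochastic hD
  have h1 : ∑ x, ∑ y, M x y * W x y ≤ ∑ x, ∑ y, D x y * W x y :=
    sum_le_sum fun x _ => sum_le_sum fun y _ => mul_le_mul_of_nonneg_right (hMD x y) (hW x y)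
  have h2 : ∑ x, ∑ y, D x y * W x y = ∑ σ, w σ * ∑ x, W x (σ x) := by
    have h3 : ∀ x y, D x y * W x y = ∑ σ, w σ * ((σ.permMatrix ℝ) x y * W x y) := by
      intro x y
      rw [← hwD, Matrix.sum_apply, sum_mul]
      apply sum_congr rfl
      intro σ _
      rw [Matrix.smul_apply, smul_eq_mul, mul_assoc]
    simp only [h3]
    have h4 : ∑ x, ∑ y, ∑ σ, w σ * ((σ.permMatrix ℝ) x y * W x y) =
        ∑ σ, ∑ x, ∑ y, w σ * ((σ.permMatrix ℝ) x y * W x y) := by
      rw [sum_comm]
      have h5 : ∀ y, ∑ x, ∑ σ, w σ * ((σ.permMatrix ℝ) x y * W x y) =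
          ∑ σ, ∑ x, w σ * ((σ.permMatrix ℝ) x y * W x y) := fun y => sum_comm
      simp only [h5]
      rw [sum_comm]
      apply sum_congr rfl
      intro σ _
      rw [sum_comm]
    rw [h4]
    apply sum_congr rfl
    intro σ _
    rw [mul_sum]
    apply sum_congr rfl
    intro x _
    rw [sum_eq_single (σ x)]
    · simp [Equiv.Perm.permMatrix, PEquiv.toMatrix_apply]
    · intro y _ hy
      have : (σ.permMatrix ℝ) x y = 0 := by
        simp only [Equiv.Perm.permMatrix, PEquiv.toMatrix_apply, Equiv.toPEquiv_apply,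
          Option.mem_def, Option.some.injEq]
        rw [if_neg (fun h => hy h.symm)]
      rw [this]
      ring
    · intro h
      exact absurd (mem_univ _) h
  by_contra hcon
  push Not at hcon
  have h6 : ∑ σ, w σ * ∑ x, W x (σ x) ≤ ∑ σ, w σ * (∑ x, ∑ y, M x y * W x y) :=
    sum_le_sum fun σ _ => mul_le_mul_of_nonneg_left (hcon σ).le (hw0 σ)
  have h7 : ∑ x, ∑ y, D x y * W x y = ∑ x, ∑ y, M x y * W x y := by
    apply le_antisymm _ h1
    rw [h2]
    refine h6.trans (le_of_eq ?_)
    rw [← sum_mul, hw1, one_mul]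
  have h8 : ∑ σ, w σ * ((∑ x, ∑ y, M x y * W x y) - ∑ x, W x (σ x)) = 0 := by
    simp only [mul_sub, sum_sub_distrib]
    rw [← sum_mul, hw1, one_mul, ← h2, h7, sub_self]
  have h9 : ∀ σ, w σ = 0 := by
    intro σ
    have h10 := (sum_eq_zero_iff_of_nonneg (fun σ _ =>
      mul_nonneg (hw0 σ) (by linarith [hcon σ]))).1 h8 σ (mem_univ σ)
    rcases mul_eq_zero.1 h10 with h | h
    · exact h
    · linarith [hcon σ]
  simp [h9] at hw1

/-- **Lemma on functions of in-degree at most two.** -/
theorem bir {V : Type*} [Fintype V] [DecidableEq V] (a w : V → V → ℝ) (h0 : ∀ j k, 0 ≤ a j k)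
    (hr : ∀ j, ∑ k, a j k ≤ 1) (hc : ∀ k, ∑ j, a j k ≤ 2) (hw : ∀ j k, 0 ≤ w j k)
    (hww : ∀ j, w j j = 0) :
    ∃ f : V → V, (∀ k, (univ.filter (fun j => j ≠ k ∧ f j = k)).card ≤ 2) ∧
      ∑ j, ∑ k, a j k * w j k ≤ ∑ j, (if f j = j then 0 else w j (f j)) := by
  classical
  set M : Matrix (V × Bool) (V × Bool) ℝ := fun x y => if x.2 then 0 else a x.1 y.1 / 2 with hM
  set W : Matrix (V × Bool) (V × Bool) ℝ := fun x y => if x.2 then 0 else w x.1 y.1 with hW
  obtain ⟨σ, hσ⟩ := exists_perm_ge M W (fun x y => by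
      simp only [hM]
      split_ifs
      · exact le_rfl
      · exact div_nonneg (h0 _ _) (by norm_num))
    (fun x => by
      simp only [hM]
      split_ifs
      · simp
      · rw [Fintype.sum_prod_type]
        have h1 : ∀ k, ∑ _b : Bool, a x.1 k / 2 = a x.1 k := by
          intro k
          rw [Fintype.sum_bool]
          ring
        simp only [h1]
        exact hr x.1)
    (fun y => by
      simp only [hM]
      rw [Fintype.sum_prod_type]
      have h1 : ∀ j, ∑ b : Bool, (if b = true then (0:ℝ) else a j y.1 / 2) = a j y.1 / 2 := by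
        intro j
        rw [Fintype.sum_bool]
        simp
      simp only [h1]
      rw [← sum_div]
      linarith [hc y.1])
    (fun x y => by
      simp only [hW]
      split_ifs
      · exact le_rfl
      · exact hw _ _)
  refine ⟨fun j => (σ (j, false)).1, ?_, ?_⟩
  · intro k
    have h1 : (univ.filter (fun j => j ≠ k ∧ (σ (j, false)).1 = k)).card ≤
        (univ : Finset Bool).card := by
      apply card_le_card_of_injOn (fun j => (σ (j, false)).2) (fun _ _ => mem_univ _)
      intro j hj j' hj' he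
      have hj1 := (mem_filter.1 (mem_coe.1 hj)).2.2
      have hj2 := (mem_filter.1 (mem_coe.1 hj')).2.2
      have h2 : σ (j, false) = σ (j', false) := Prod.ext (hj1.trans hj2.symm) he
      have h3 := σ.injective h2
      exact congrArg Prod.fst h3
    simpa using h1
  · have h1 : ∑ x, ∑ y, M x y * W x y = ∑ j, ∑ k, a j k * w j k := by
      rw [Fintype.sum_prod_type]
      apply sum_congr rfl
      intro j _
      rw [Fintype.sum_bool]
      simp only [hM, hW, if_true, Bool.false_eq_true, if_false, zero_mul, sum_const_zero, zero_add]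
      rw [Fintype.sum_prod_type]
      apply sum_congr rfl
      intro k _
      rw [Fintype.sum_bool]
      ring
    have h2 : ∑ x, W x (σ x) = ∑ j, w j (σ (j, false)).1 := by
      rw [Fintype.sum_prod_type]
      apply sum_congr rfl
      intro j _
      rw [Fintype.sum_bool]
      simp [hW]
    rw [h1, h2] at hσ
    refine hσ.trans (le_of_eq ?_)
    apply sum_congr rfl
    intro j _
    split_ifs with h
    · have h' : (σ (j, false)).1 = j := h
      rw [h', hww]
    · rfl

end Pool.Agent.Helper39.CB
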