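import Mathlib

/-!
# Project CB: three colours for the edges of a functional graph of in-degree at most two
-/

set_option autoImplicit false

namespace Pool.Agent.Helper39.CB

open Finset

theorem exists_third (a b : Fin 3) : ∃ c : Fin 3, c ≠ a ∧ c ≠ b := by
  revert a b
  decide

/-- three colours for an injective map -/
theorem col_inj {V : Type*} [DecidableEq V] (f : V → V) (S : Finset V)
    (hinj : ∀ i ∈ S, ∀ j ∈ S, f i = f j → i = j) :
    ∃ χ : V → Fin 3, ∀ j ∈ S, f j ∈ S → f j ≠ j → χ (f j) ≠ χ j := by
  classical
  induction S using Finset.induction_on with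
  | empty => exact ⟨fun _ => 0, by simp⟩
  | insert a S ha ih =>
    obtain ⟨χ, hχ⟩ := ih (fun i hi j hj h => hinj i (mem_insert_of_mem hi) j (mem_insert_of_mem hj) h)
    -- the colour of the element mapped to `a`
    by_cases hb : ∃ b ∈ S, f b = a
    · obtain ⟨b, hbS, hb⟩ := hb
      obtain ⟨c, hc1, hc2⟩ := exists_third (χ (f a)) (χ b)
      refine ⟨Function.update χ a c, ?_⟩
      intro j hj hfj hne
      by_cases hja : j = a
      · subst hja
        rw [Function.update_of_ne hne, Function.update_self]
        exact fun h => hc1 h.symm
      · have hjS : j ∈ S := (mem_insert.1 hj).resolve_left hja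
        by_cases hfa : f j = a
        · have : j = b := hinj j hj b (mem_insert_of_mem hbS) (hfa.trans hb.symm)
          subst this
          rw [hfa, Function.update_self, Function.update_of_ne hja]
          exact hc2
        · rw [Function.update_of_ne hfa, Function.update_of_ne hja]
          exact hχ j hjS ((mem_insert.1 hfj).resolve_left hfa) hne
    · push Not at hb
      obtain ⟨c, hc1, -⟩ := exists_third (χ (f a)) 0
      refine ⟨Function.update χ a c, ?_⟩
      intro j hj hfj hne
      by_cases hja : j = a
      · subst hja
        rw [Function.update_of_ne hne, Function.update_self]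
        exact fun h => hc1 h.symm
      · have hjS : j ∈ S := (mem_insert.1 hj).resolve_left hja
        have hfa : f j ≠ a := hb j hjS
        rw [Function.update_of_ne hfa, Function.update_of_ne hja]
        exact hχ j hjS ((mem_insert.1 hfj).resolve_left hfa) hne

/-- three colours on a set which is mapped into itself -/
theorem col_closed {V : Type*} [DecidableEq V] (f : V → V) (n : ℕ) : ∀ S : Finset V, S.card = n →
    (∀ j ∈ S, f j ∈ S) → (∀ k ∈ S, (S.filter (fun j => j ≠ k ∧ f j = k)).card ≤ 2) →
    ∃ χ : V → Fin 3, (∀ j ∈ S, f j ≠ j → χ (f j) ≠ χ j) ∧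
      ∀ j ∈ S, ∀ j' ∈ S, j ≠ j' → f j ≠ j → f j' ≠ j' → f j = f j' → χ j ≠ χ j' := by
  classical
  induction n with
  | zero =>
    intro S hS _ _
    have : S = ∅ := card_eq_zero.1 hS
    subst this
    exact ⟨fun _ => 0, by simp, by simp⟩
  | succ n ih =>
    intro S hS hcl hdeg
    by_cases hleaf : ∃ a ∈ S, ∀ i ∈ S, i ≠ a → f i ≠ a
    · obtain ⟨a, haS, ha⟩ := hleaf
      have hmem : ∀ x, x ∈ S.erase a ↔ x ≠ a ∧ x ∈ S := fun x => mem_erase
      obtain ⟨χ, h1, h2⟩ := ih (S.erase a) (by rw [card_erase_of_mem haS, hS]; rfl)
        (fun j hj => by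
          rw [hmem] at hj ⊢
          exact ⟨ha j hj.2 hj.1, hcl j hj.2⟩)
        (fun k hk => by
          rw [hmem] at hk
          refine le_trans (card_le_card ?_) (hdeg k hk.2)
          exact filter_subset_filter _ (erase_subset _ _))
      -- the other element with the same image
      have hex : ∃ c : Fin 3, (f a ≠ a → c ≠ χ (f a)) ∧
          ∀ j ∈ S, j ≠ a → f j ≠ j → f a ≠ a → f j = f a → c ≠ χ j := by
        by_cases hs : ∃ b ∈ S, b ≠ a ∧ f b ≠ b ∧ f a ≠ a ∧ f b = f a
        · obtain ⟨b, hbS, hba, hbb, haa, hfb⟩ := hs
          obtain ⟨c, hc1, hc2⟩ := exists_third (χ (f a)) (χ b)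
          refine ⟨c, fun _ => hc1, ?_⟩
          intro j hjS hja hjj _ hfj
          by_cases hjb : j = b
          · rw [hjb]; exact hc2
          · exfalso
            have hsub : ({a, b, j} : Finset V) ⊆ S.filter (fun x => x ≠ f a ∧ f x = f a) := by
              intro x hx
              rw [mem_insert, mem_insert, mem_singleton] at hx
              rw [mem_filter]
              rcases hx with rfl | rfl | rfl
              · exact ⟨haS, fun h => haa h.symm, rfl⟩
              · exact ⟨hbS, fun h => hbb (hfb.trans h.symm), hfb⟩
              · exact ⟨hjS, fun h => hjj (hfj.trans h.symm), hfj⟩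
            have h3 : ({a, b, j} : Finset V).card = 3 := by
              rw [card_insert_of_notMem, card_insert_of_notMem, card_singleton]
              · rw [mem_singleton]
                exact fun h => hjb h.symm
              · rw [mem_insert, mem_singleton]
                rintro (h | h)
                · exact hba h.symm
                · exact hja h.symm
            have h4 := card_le_card hsub
            have h5 := hdeg (f a) (hcl a haS)
            omega
        · push Not at hs
          obtain ⟨c, hc1, -⟩ := exists_third (χ (f a)) 0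
          refine ⟨c, fun _ => hc1, ?_⟩
          intro j hjS hja hjj haa hfj
          exact absurd hfj (hs j hjS hja hjj haa)
      obtain ⟨c, hc1, hc2⟩ := hex
      refine ⟨Function.update χ a c, ?_, ?_⟩
      · intro j hj hne
        by_cases hja : j = a
        · subst hja
          rw [Function.update_of_ne hne, Function.update_self]
          exact fun h => hc1 hne h.symm
        · have hfa : f j ≠ a := ha j hj hja
          rw [Function.update_of_ne hfa, Function.update_of_ne hja]
          exact h1 j ((hmem j).2 ⟨hja, hj⟩) hne
      · intro j hj j' hj' hjj' hfj hfj' he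
        by_cases hja : j = a
        · subst hja
          rw [Function.update_self, Function.update_of_ne (fun h => hjj' h.symm)]
          exact hc2 j' hj' (fun h => hjj' h.symm) hfj' hfj he.symm
        · by_cases hja' : j' = a
          · subst hja'
            rw [Function.update_self, Function.update_of_ne hja]
            exact fun h => hc2 j hj hja hfj hfj' he h.symm
          · rw [Function.update_of_ne hja, Function.update_of_ne hja']
            exact h2 j ((hmem j).2 ⟨hja, hj⟩) j' ((hmem j').2 ⟨hja', hj'⟩) hjj' hfj hfj' he
    · push Not at hleaf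
      -- `f` is a permutation of `S`
      have himg : S.image f = S := by
        apply Subset.antisymm
        · intro x hx
          obtain ⟨j, hj, rfl⟩ := mem_image.1 hx
          exact hcl j hj
        · intro a ha
          obtain ⟨i, hi, _, hfi⟩ := hleaf a ha
          exact mem_image.2 ⟨i, hi, hfi⟩
      have hinj : Set.InjOn f (S : Set V) := by
        apply card_image_iff.1
        rw [himg]
      obtain ⟨χ, hχ⟩ := col_inj f S (fun i hi j hj h => hinj hi hj h)
      refine ⟨χ, fun j hj hne => hχ j hj (hcl j hj) hne, ?_⟩
      intro j hj j' hj' hjj' _ _ he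
      exact absurd (hinj hj hj' he) hjj'

/-- **Colouring lemma.** -/
theorem col {V : Type*} [Fintype V] [DecidableEq V] (f : V → V)
    (hdeg : ∀ k, (univ.filter (fun j => j ≠ k ∧ f j = k)).card ≤ 2) :
    ∃ χ : V → Fin 3, (∀ j, f j ≠ j → χ (f j) ≠ χ j) ∧
      ∀ j j', j ≠ j' → f j ≠ j → f j' ≠ j' → f j = f j' → χ j ≠ χ j' := by
  obtain ⟨χ, h1, h2⟩ := col_closed f _ (univ : Finset V) rfl (fun _ _ => mem_univ _)
    (fun k _ => hdeg k)
  exact ⟨χ, fun j => h1 j (mem_univ j), fun j j' => h2 j (mem_univ j) j' (mem_univ j')⟩

end Pool.Agent.Helper39.CB
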