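import Mathlib

/-!
# Project CB: sums over sets of two and three elements
-/

set_option autoImplicit false

namespace Pool.Agent.Helper39.CB

open Finset

theorem dc {V : Type*} [DecidableEq V] (A : Finset V) (m : ℕ) (F : Finset V → ℝ) :
    ∑ i ∈ A, ∑ T ∈ powersetCard m (A.erase i), F (insert i T) =
      (m + 1) * ∑ S ∈ powersetCard (m + 1) A, F S := by
  have h1 : ((m : ℝ) + 1) * ∑ S ∈ powersetCard (m + 1) A, F S =
      ∑ S ∈ powersetCard (m + 1) A, ∑ i ∈ A, (if i ∈ S then F S else 0) := by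
    rw [mul_sum]
    apply sum_congr rfl
    intro S hS
    rw [mem_powersetCard] at hS
    rw [← sum_filter, sum_const]
    have h2 : A.filter (fun i => i ∈ S) = S := by
      ext i
      rw [mem_filter]
      exact ⟨fun h => h.2, fun h => ⟨hS.1 h, h⟩⟩
    rw [h2, hS.2, nsmul_eq_mul]
    push_cast
    ring
  rw [h1, sum_comm]
  apply sum_congr rfl
  intro i hi
  rw [← sum_filter]
  refine sum_nbij' (fun T => insert i T) (fun S => S.erase i) ?_ ?_ ?_ ?_ ?_
  · intro T hT
    rw [mem_powersetCard] at hT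
    have hiT : i ∉ T := fun h => (mem_erase.1 (hT.1 h)).1 rfl
    rw [mem_filter, mem_powersetCard]
    refine ⟨⟨?_, ?_⟩, mem_insert_self i T⟩
    · rw [insert_subset_iff]
      exact ⟨hi, hT.1.trans (erase_subset _ _)⟩
    · rw [card_insert_of_notMem hiT, hT.2]
  · intro S hS
    rw [mem_filter, mem_powersetCard] at hS
    rw [mem_powersetCard]
    refine ⟨erase_subset_erase i hS.1.1, ?_⟩
    rw [card_erase_of_mem hS.2, hS.1.2]
    rfl
  · intro T hT
    rw [mem_powersetCard] at hT
    have hiT : i ∉ T := fun h => (mem_erase.1 (hT.1 h)).1 rfl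
    exact erase_insert hiT
  · intro S hS
    rw [mem_filter] at hS
    exact insert_erase hS.2
  · intro T _
    rfl

theorem sum_pairs {V : Type*} [DecidableEq V] (A : Finset V) (F : Finset V → ℝ) :
    ∑ i ∈ A, ∑ j ∈ A.erase i, F {i, j} = 2 * ∑ S ∈ powersetCard 2 A, F S := by
  have h := dc A 1 F
  have h1 : ∀ i ∈ A, ∑ T ∈ powersetCard 1 (A.erase i), F (insert i T) =
      ∑ j ∈ A.erase i, F {i, j} := by
    intro i _
    rw [powersetCard_one, sum_map]
    rfl
  rw [sum_congr rfl h1] at h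
  rw [h]
  norm_num

theorem sum_triples {V : Type*} [DecidableEq V] (A : Finset V) (F : Finset V → ℝ) :
    ∑ i ∈ A, ∑ j ∈ A.erase i, ∑ k ∈ (A.erase i).erase j, F {i, j, k} =
      6 * ∑ S ∈ powersetCard 3 A, F S := by
  have h := dc A 2 F
  have h1 : ∀ i ∈ A, ∑ j ∈ A.erase i, ∑ k ∈ (A.erase i).erase j, F {i, j, k} =
      2 * ∑ T ∈ powersetCard 2 (A.erase i), F (insert i T) := by
    intro i _
    rw [← sum_pairs (A.erase i) (fun T => F (insert i T))]
  rw [sum_congr rfl h1, ← mul_sum, h]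
  push_cast
  ring

end Pool.Agent.Helper39.CB
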