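import Pool.Agent.Helper39.CB.Pack
import Pool.Agent.Helper39.CB.Bir
import Pool.Agent.Helper39.CB.Sums

/-!
# Project CB: one row, one stratum
-/

set_option autoImplicit false

namespace Pool.Agent.Helper39.CB

open Finset Pool.Agent.Helper88.CC

variable {n : ℕ}

/-! ## one row -/

theorem row {K : Finset (Fin n) → ℝ} (hK : FNef K) (hn : 4 ≤ n) (i : Fin n)
    (P : Finset (Finset (Fin n))) (h1 : ∀ U ∈ P, U.Nonempty ∧ i ∉ U)
    (h2 : ∀ U ∈ P, ∀ W ∈ P, U ≠ W → Disjoint U W)
    (a : Fin n → Fin n → ℝ) (α : ℝ) (hα : 0 ≤ α) (h0 : ∀ j k, 0 ≤ a j k)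
    (hz : ∀ j k, (j = i ∨ k = i ∨ j = k ∨ ∃ U ∈ P, j ∈ U ∨ k ∈ U) → a j k = 0)
    (hr : ∀ j, ∑ k, a j k ≤ α) (hc : ∀ k, ∑ j, a j k ≤ 2 * α) :
    3 * (α * ∑ U ∈ P, hh K i U) + ∑ j, ∑ k, a j k * TT K i j k ≤ 3 * (α * GG K i) := by
  classical
  rcases hα.eq_or_lt with h | h
  · have ha : ∀ j k, a j k = 0 := by
      intro j k
      have h1 : ∑ k, a j k = 0 := le_antisymm (by rw [h]; exact hr j) (sum_nonneg fun k _ => h0 j k)
      exact (sum_eq_zero_iff_of_nonneg (fun k _ => h0 j k)).1 h1 k (mem_univ k)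
    simp [ha, ← h]
  · obtain ⟨f, hf, hle⟩ := bir (fun j k => a j k / α)
      (fun j k => if j = i ∨ k = i ∨ k = j ∨ ∃ U ∈ P, j ∈ U ∨ k ∈ U then 0 else TT K i j k)
      (fun j k => div_nonneg (h0 j k) h.le)
      (fun j => by rw [← sum_div, div_le_one h]; exact hr j)
      (fun k => by rw [← sum_div, div_le_iff₀ h]; exact hc k)
      (fun j k => by
        split_ifs with h1
        · exact le_rfl
        · push Not at h1
          exact TT_nonneg hn hK (fun e => h1.1 e.symm) (fun e => h1.2.1 e.symm)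
            (fun e => h1.2.2.1 e.symm))
      (fun j => by simp)
    have h3 := fun_ineq hK (by omega) i P h1 h2 f hf
      (fun j => j = i ∨ f j = i ∨ f j = j ∨ ∃ U ∈ P, j ∈ U ∨ f j ∈ U) (fun j hj => hj)
    have h4 : ∑ j, ∑ k, a j k / α *
        (if j = i ∨ k = i ∨ k = j ∨ ∃ U ∈ P, j ∈ U ∨ k ∈ U then 0 else TT K i j k) =
        (∑ j, ∑ k, a j k * TT K i j k) / α := by
      rw [sum_div]
      apply sum_congr rfl
      intro j _
      rw [sum_div]
      apply sum_congr rfl
      intro k _
      split_ifs with h4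
      · rw [hz j k (by
          rcases h4 with h5 | h5 | h5 | h5
          · exact Or.inl h5
          · exact Or.inr (Or.inl h5)
          · exact Or.inr (Or.inr (Or.inl h5.symm))
          · exact Or.inr (Or.inr (Or.inr h5)))]
        simp
      · ring
    have h5 : ∑ j, (if f j = j then 0 else
        (fun j k => if j = i ∨ k = i ∨ k = j ∨ ∃ U ∈ P, j ∈ U ∨ k ∈ U then 0 else TT K i j k)
          j (f j)) =
        ∑ j, (if j = i ∨ f j = i ∨ f j = j ∨ ∃ U ∈ P, j ∈ U ∨ f j ∈ U then 0
          else TT K i j (f j)) := by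
      apply sum_congr rfl
      intro j _
      by_cases h5 : f j = j
      · rw [if_pos h5, if_pos (Or.inr (Or.inr (Or.inl h5)))]
      · rw [if_neg h5]
    have h6 := hle
    rw [h4] at h6
    have h7 := h6.trans (le_of_eq h5)
    have h8 : 3 * ∑ U ∈ P, hh K i U + (∑ j, ∑ k, a j k * TT K i j k) / α ≤ 3 * GG K i :=
      (add_le_add_right h7 _).trans h3
    have h9 := mul_le_mul_of_nonneg_left h8 h.le
    rw [mul_add, mul_div_cancel₀ _ h.ne'] at h9
    linarith

/-! ## one stratum -/

theorem VV_singleton {K : Finset (Fin n) → ℝ} (hK : FNef K) (i : Fin n) : VV K {i} = 0 := by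
  unfold VV
  rw [hK.singleton]
  have : powersetCard 2 ({i} : Finset (Fin n)) = ∅ := by
    apply powersetCard_eq_empty.2
    rw [card_singleton]
    norm_num
  rw [this, sum_empty]
  norm_num

theorem VV_insert {K : Finset (Fin n) → ℝ} {j : Fin n} {U : Finset (Fin n)} (hj : j ∉ U) :
    VV K (insert j U) = VV K U + hh K j U := by
  unfold VV hh
  have h1 : ∑ T ∈ powersetCard 2 (insert j U), K T =
      ∑ T ∈ powersetCard 2 U, K T + ∑ k ∈ U, K {j, k} := by
    rw [powersetCard_succ_insert hj, sum_union, sum_image]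
    · rw [powersetCard_one, sum_map]
      rfl
    · intro T hT T' hT' he
      have hjT : j ∉ T := fun h => hj ((mem_powersetCard.1 (mem_coe.1 hT)).1 h)
      have hjT' : j ∉ T' := fun h => hj ((mem_powersetCard.1 (mem_coe.1 hT')).1 h)
      rw [← erase_insert hjT, he, erase_insert hjT']
    · rw [disjoint_left]
      intro T hT hT'
      obtain ⟨T₀, _, he⟩ := mem_image.1 hT'
      exact hj ((mem_powersetCard.1 hT).1 (he ▸ mem_insert_self j T₀))
  rw [h1]
  ring

/-- `h` is monotone -/
theorem hh_mono {K : Finset (Fin n) → ℝ} (hK : FNef K) {i : Fin n} {U W : Finset (Fin n)}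
    (hi : i ∉ W) (hUW : U ⊆ W) (hne : insert i W ≠ univ) : hh K i U ≤ hh K i W := by
  classical
  obtain ⟨R, hR⟩ : ∃ R, R = W \ U := ⟨_, rfl⟩
  induction R using Finset.induction_on generalizing W with
  | empty =>
    have : W = U := Subset.antisymm (sdiff_eq_empty_iff_subset.1 hR.symm) hUW
    rw [this]
  | insert j R hj ih =>
    have hjW : j ∈ W ∧ j ∉ U := by
      rw [← mem_sdiff, ← hR]
      exact mem_insert_self j R
    have h1 : U ⊆ W.erase j := by
      intro x hx
      rw [mem_erase]
      exact ⟨fun h => hjW.2 (h ▸ hx), hUW hx⟩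
    have h2 : R = W.erase j \ U := by
      ext x
      rw [mem_sdiff, mem_erase]
      constructor
      · intro hx
        have h3 : x ∈ W \ U := hR ▸ mem_insert_of_mem hx
        rw [mem_sdiff] at h3
        exact ⟨⟨fun h => hj (h ▸ hx), h3.1⟩, h3.2⟩
      · rintro ⟨⟨h3, h4⟩, h5⟩
        have h6 : x ∈ insert j R := hR ▸ mem_sdiff.2 ⟨h4, h5⟩
        exact (mem_insert.1 h6).resolve_left h3
    have hij : i ≠ j := fun h => hi (h ▸ hjW.1)
    have h7 := ih (W := W.erase j) (fun h => hi (mem_of_mem_erase h)) h1 (by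
      intro h
      have h8 : j ∈ insert i (W.erase j) := h ▸ mem_univ j
      rw [mem_insert] at h8
      rcases h8 with h9 | h9
      · exact hij h9.symm
      · exact (mem_erase.1 h9).1 rfl) h2
    refine h7.trans ?_
    rcases (W.erase j).eq_empty_or_nonempty with h | h
    · rw [h]
      have e : W = {j} := by
        rw [← insert_erase hjW.1, h]
        rfl
      rw [e, hh_singleton hK]
      unfold hh
      rw [hK.empty, sum_empty]
      have e' : (insert i ∅ : Finset (Fin n)) = {i} := rfl
      rw [e', hK.singleton]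
      norm_num
    · have h8 := hh_insert hK h hij (fun h => hi (mem_of_mem_erase h)) (notMem_erase j W) (by
        rw [insert_erase hjW.1]
        exact hne)
      rwa [insert_erase hjW.1] at h8

theorem VV_le_one {K : Finset (Fin n) → ℝ} (hK : FNef K) {S : Finset (Fin n)} (hS : S ≠ univ)
    {i : Fin n} (hi : i ∈ S) : VV K S ≤ ∑ j ∈ S.erase i, hh K j (S.erase j) := by
  classical
  have key : ∀ R : Finset (Fin n), R ⊆ S.erase i →
      VV K (insert i R) ≤ ∑ j ∈ R, hh K j (S.erase j) := by
    intro R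
    induction R using Finset.induction_on with
    | empty =>
      intro _
      have e : (insert i ∅ : Finset (Fin n)) = {i} := rfl
      rw [e, VV_singleton hK, sum_empty]
    | insert j R hj ih =>
      intro hR
      have hR' : R ⊆ S.erase i := fun x hx => hR (mem_insert_of_mem hx)
      have hjS : j ∈ S.erase i := hR (mem_insert_self j R)
      rw [mem_erase] at hjS
      have hjR : j ∉ insert i R := by
        rw [mem_insert]
        rintro (h | h)
        · exact hjS.1 h
        · exact hj h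
      rw [insert_comm, VV_insert hjR, sum_insert hj]
      have h1 : hh K j (insert i R) ≤ hh K j (S.erase j) := by
        apply hh_mono hK (notMem_erase j S)
        · intro x hx
          rw [mem_erase]
          refine ⟨fun h => hjR (h ▸ hx), ?_⟩
          rcases mem_insert.1 hx with h | h
          · exact h ▸ hi
          · exact mem_of_mem_erase (hR' h)
        · rw [insert_erase hjS.2]
          exact hS
      linarith [ih hR']
  have h := key (S.erase i) Subset.rfl
  rwa [insert_erase hi] at h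

theorem VV_le_half {K : Finset (Fin n) → ℝ} (hK : FNef K) {S : Finset (Fin n)} (hS : S ≠ univ)
    (hne : S.Nonempty) : 2 * VV K S ≤ ∑ i ∈ S, hh K i (S.erase i) := by
  classical
  have hcn : (Sᶜ).Nonempty := by
    rw [nonempty_iff_ne_empty]
    intro h
    exact hS (compl_eq_empty_iff S |>.1 h)
  have h := sub_family hK Sᶜ hcn S hne (fun i => ({i} : Finset (Fin n)))
    (fun i _ => singleton_nonempty i)
    (fun i hi => by
      rw [disjoint_singleton_right, mem_compl]
      exact fun h => h hi)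
    (fun i _ j _ hij => by
      rw [disjoint_singleton]
      exact hij)
  have e1 : (S.biUnion fun i => ({i} : Finset (Fin n))) = S := biUnion_singleton_eq_self
  have e2 : (Sᶜ ∪ S : Finset (Fin n)) = univ := by
    rw [union_comm, union_compl]
  rw [e1, e2, hK.univ, hK.compl] at h
  have hterm : ∀ i ∈ S, K (Sᶜ ∪ {i}) - K {i} - K S = K (S.erase i) - K S := by
    intro i hi
    have e3 : (Sᶜ ∪ {i} : Finset (Fin n)) = (S.erase i)ᶜ := by
      ext x
      simp only [mem_union, mem_compl, mem_singleton, mem_erase]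
      by_cases hx : x = i
      · subst hx
        simp
      · simp [hx]
    rw [e3, hK.compl, hK.singleton]
    ring
  rw [sum_congr rfl hterm] at h
  have h2 := sum_pairs S K
  have h3 : ∑ i ∈ S, hh K i (S.erase i) = ∑ i ∈ S, (K (S.erase i) - K S) +
      ∑ i ∈ S, ∑ j ∈ S.erase i, K {i, j} := by
    rw [← sum_add_distrib]
    apply sum_congr rfl
    intro i hi
    unfold hh
    rw [insert_erase hi]
  rw [h3, h2]
  unfold VV
  linarith

/-- **Local lemma.** -/
theorem loc {K : Finset (Fin n) → ℝ} (hK : FNef K) {S : Finset (Fin n)} (hS : S ≠ univ)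
    (hne : S.Nonempty) (α : Fin n → ℝ) (hα : ∀ i ∈ S, 0 ≤ α i) (q : ℝ) (hq : 0 ≤ q)
    (hqα : ∀ i ∈ S, ∀ j ∈ S, i ≠ j → q ≤ α i + α j) :
    q * VV K S ≤ ∑ i ∈ S, α i * hh K i (S.erase i) := by
  classical
  have hnn : ∀ i ∈ S, 0 ≤ hh K i (S.erase i) := fun i hi =>
    hh_nonneg hK i _ (notMem_erase i S) (by rw [insert_erase hi]; exact hS)
  have hhalf := VV_le_half hK hS hne
  by_cases h : ∀ i ∈ S, q / 2 ≤ α i
  · calc q * VV K S = q / 2 * (2 * VV K S) := by ring
      _ ≤ q / 2 * ∑ i ∈ S, hh K i (S.erase i) :=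
          mul_le_mul_of_nonneg_left hhalf (by linarith)
      _ = ∑ i ∈ S, q / 2 * hh K i (S.erase i) := by rw [mul_sum]
      _ ≤ ∑ i ∈ S, α i * hh K i (S.erase i) :=
          sum_le_sum fun i hi => mul_le_mul_of_nonneg_right (h i hi) (hnn i hi)
  · push Not at h
    obtain ⟨i, hi, hlt⟩ := h
    have hone := VV_le_one hK hS hi
    have hi0 := hα i hi
    have h1 : ∀ j ∈ S.erase i, (q - α i) * hh K j (S.erase j) ≤ α j * hh K j (S.erase j) := by
      intro j hj
      rw [mem_erase] at hj
      apply mul_le_mul_of_nonneg_right _ (hnn j hj.2)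
      have := hqα i hi j hj.2 (fun h => hj.1 h.symm)
      linarith
    rw [← add_sum_erase S _ hi]
    rw [← add_sum_erase S _ hi] at hhalf
    have h2 : (q - α i) * ∑ j ∈ S.erase i, hh K j (S.erase j) ≤
        ∑ j ∈ S.erase i, α j * hh K j (S.erase j) := by
      rw [mul_sum]
      exact sum_le_sum h1
    have h3 : α i * (2 * VV K S) ≤
        α i * (hh K i (S.erase i) + ∑ j ∈ S.erase i, hh K j (S.erase j)) :=
      mul_le_mul_of_nonneg_left hhalf hi0
    have h4 : (q - 2 * α i) * VV K S ≤ (q - 2 * α i) * ∑ j ∈ S.erase i, hh K j (S.erase j) :=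
      mul_le_mul_of_nonneg_left hone (by linarith)
    linarith

end Pool.Agent.Helper39.CB
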