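import Pool.Agent.Helper39.CB.Loc

/-!
# Project CB: balanced curve classes with isolated large strata are in the F-cone
-/

set_option autoImplicit false

namespace Pool.Agent.Helper39.CB

open Finset Pool.Agent.Helper88.CC

variable {n : ℕ}

/-- the pairing of a class with a function on the sets -/
theorem pairing (hn : 5 ≤ n) {c K : Finset (Fin n) → ℝ} (hcc : ∀ S, c Sᶜ = c S)
    (hc1 : ∀ S, S.card ≤ 1 → c S = 0) (𝒮 : Finset (Finset (Fin n)))
    (hS3 : ∀ S ∈ 𝒮, 3 ≤ S.card ∧ 3 ≤ Sᶜ.card) (hSc : ∀ S ∈ 𝒮, Sᶜ ∉ 𝒮)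
    (hsupp : ∀ S, 3 ≤ S.card → 3 ≤ Sᶜ.card → c S ≠ 0 → S ∈ 𝒮 ∨ Sᶜ ∈ 𝒮)
    (hKc : ∀ S, K Sᶜ = K S) :
    ∑ S, c S * K S = 2 * ∑ S ∈ powersetCard 2 univ, c S * K S + 2 * ∑ S ∈ 𝒮, c S * K S := by
  classical
  set F : Finset (Fin n) → ℝ := fun S => c S * K S with hF
  have hFc : ∀ S, F Sᶜ = F S := fun S => by simp only [hF]; rw [hcc, hKc]
  have hcard : ∀ S : Finset (Fin n), S.card + Sᶜ.card = n := fun S => by
    rw [card_compl, Fintype.card_fin]
    have := card_le_univ S
    rw [Fintype.card_fin] at this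
    omega
  have key : ∀ S, F S = (if S.card = 2 then F S else 0) + (if Sᶜ.card = 2 then F S else 0) +
      ((if S ∈ 𝒮 then F S else 0) + (if Sᶜ ∈ 𝒮 then F S else 0)) := by
    intro S
    have h1 := hcard S
    by_cases a1 : S.card ≤ 1
    · have : F S = 0 := by simp only [hF]; rw [hc1 S a1, zero_mul]
      rw [this]
      simp
    by_cases a2 : Sᶜ.card ≤ 1
    · have : F S = 0 := by rw [← hFc]; simp only [hF]; rw [hc1 _ a2, zero_mul]
      rw [this]
      simp
    by_cases b1 : S.card = 2
    · have b3 : S ∉ 𝒮 := fun h => by have := (hS3 S h).1; omega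
      have b4 : Sᶜ ∉ 𝒮 := fun h => by
        have := (hS3 _ h).2
        rw [compl_compl] at this
        omega
      rw [if_pos b1, if_neg (by omega), if_neg b3, if_neg b4]
      ring
    by_cases b2 : Sᶜ.card = 2
    · have b3 : S ∉ 𝒮 := fun h => by have := (hS3 S h).2; omega
      have b4 : Sᶜ ∉ 𝒮 := fun h => by have := (hS3 _ h).1; omega
      rw [if_neg b1, if_pos b2, if_neg b3, if_neg b4]
      ring
    rw [if_neg b1, if_neg b2]
    by_cases b3 : S ∈ 𝒮
    · rw [if_pos b3, if_neg (hSc S b3)]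
      ring
    by_cases b4 : Sᶜ ∈ 𝒮
    · rw [if_neg b3, if_pos b4]
      ring
    have b5 : F S = 0 := by
      by_contra hne
      have h2 : c S ≠ 0 := fun h => hne (by simp only [hF]; rw [h, zero_mul])
      rcases hsupp S (by omega) (by omega) h2 with h | h
      · exact b3 h
      · exact b4 h
    rw [b5]
    simp
  have hfl1 : ∑ S : Finset (Fin n), (if Sᶜ.card = 2 then F S else 0) =
      ∑ S : Finset (Fin n), (if S.card = 2 then F S else 0) := by
    rw [← sum_compl (fun S => if S.card = 2 then F S else 0)]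
    apply sum_congr rfl
    intro S _
    rw [hFc]
  have hfl2 : ∑ S : Finset (Fin n), (if Sᶜ ∈ 𝒮 then F S else 0) =
      ∑ S : Finset (Fin n), (if S ∈ 𝒮 then F S else 0) := by
    rw [← sum_compl (fun S => if S ∈ 𝒮 then F S else 0)]
    apply sum_congr rfl
    intro S _
    rw [hFc]
  have hps1 : ∑ S : Finset (Fin n), (if S.card = 2 then F S else 0) =
      ∑ S ∈ powersetCard 2 univ, F S := by
    rw [← sum_filter]
    apply sum_congr _ (fun _ _ => rfl)
    ext S
    rw [mem_filter, mem_powersetCard]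
    simp
  have hps2 : ∑ S : Finset (Fin n), (if S ∈ 𝒮 then F S else 0) = ∑ S ∈ 𝒮, F S := by
    rw [← sum_filter]
    apply sum_congr _ (fun _ _ => rfl)
    ext S
    rw [mem_filter]
    simp
  have h1 : ∑ S, F S = ∑ S, ((if S.card = 2 then F S else 0) + (if Sᶜ.card = 2 then F S else 0) +
      ((if S ∈ 𝒮 then F S else 0) + (if Sᶜ ∈ 𝒮 then F S else 0))) :=
    sum_congr rfl fun S _ => key S
  show ∑ S, F S = _
  rw [h1, sum_add_distrib, sum_add_distrib, sum_add_distrib, hfl1, hfl2, hps1, hps2]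
  ring

theorem tri_swap (i j k : Fin n) : ({j, i, k} : Finset (Fin n)) = {i, j, k} := by
  ext x
  simp only [mem_insert, mem_singleton]
  tauto

theorem TT_swap (K : Finset (Fin n) → ℝ) (i j k : Fin n) : TT K j i k = TT K i j k := by
  unfold TT
  have e1 : ({j, i} : Finset (Fin n)) = {i, j} := pair_comm j i
  rw [e1, tri_swap i j k]
  ring

theorem tri_card {i j k : Fin n} (h : 3 ≤ ({i, j, k} : Finset (Fin n)).card) :
    i ≠ j ∧ i ≠ k ∧ j ≠ k := by
  refine ⟨?_, ?_, ?_⟩
  · rintro rfl
    have h1 : ({i, i, k} : Finset (Fin n)) = {i, k} := by simp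
    rw [h1] at h
    have := card_le_two (a := i) (b := k)
    omega
  · rintro rfl
    have h1 : ({i, j, i} : Finset (Fin n)) = {i, j} := by
      ext x
      simp only [mem_insert, mem_singleton]
      tauto
    rw [h1] at h
    have := card_le_two (a := i) (b := j)
    omega
  · rintro rfl
    have h1 : ({i, j, j} : Finset (Fin n)) = {i, j} := by simp
    rw [h1] at h
    have := card_le_two (a := i) (b := j)
    omega

/-- **Main theorem of project CB.** -/
theorem main (hn : 5 ≤ n) (c : Finset (Fin n) → ℝ) (hc : IsCurveClass c) (h0 : ∀ S, 0 ≤ c S)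
    (𝒮 : Finset (Finset (Fin n)))
    (hS3 : ∀ S ∈ 𝒮, 3 ≤ S.card ∧ 3 ≤ Sᶜ.card) (hSc : ∀ S ∈ 𝒮, Sᶜ ∉ 𝒮)
    (hsupp : ∀ S, 3 ≤ S.card → 3 ≤ Sᶜ.card → c S ≠ 0 → S ∈ 𝒮 ∨ Sᶜ ∈ 𝒮)
    (hiso : ∀ S ∈ 𝒮, 4 ≤ S.card → ∀ S' ∈ 𝒮, S' ≠ S → (S ∩ S').card ≤ 1)
    (α : Fin n → ℝ) (hα0 : ∀ i, 0 ≤ α i)
    (hα : ∀ i j, i ≠ j → α i + α j = c {i, j} + ∑ S ∈ 𝒮.filter (fun S => i ∈ S ∧ j ∈ S), c S)
    (hbal : ∀ i k, i ≠ k → 0 < α i →
      ∑ j ∈ univ.filter (fun j => ({i, j, k} : Finset (Fin n)) ∈ 𝒮), c {i, j, k} / (α i + α j) ≤ 2) :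
    InFCone c := by
  classical
  apply dual_criterion c hc.compl (fun S hS => by
    unfold Proper at hS
    by_cases h : S.card ≤ 1
    · exact hc.small S h
    · have h2 : Sᶜ.card ≤ 1 := by
        by_contra h3
        exact hS ⟨by omega, by omega⟩
      rw [← hc.compl]
      exact hc.small _ h2)
  intro K hK
  rw [pairing hn hc.compl hc.small 𝒮 hS3 hSc hsupp hK.compl]
  -- triples
  set q : Fin n → Fin n → Fin n → ℝ := fun i j k =>
    if ({i, j, k} : Finset (Fin n)) ∈ 𝒮 then c {i, j, k} else 0 with hq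
  have q0 : ∀ i j k, 0 ≤ q i j k := fun i j k => by
    simp only [hq]
    split_ifs
    · exact h0 _
    · exact le_rfl
  have qij : ∀ i j k, q i j k = q j i k := fun i j k => by
    simp only [hq]
    rw [tri_swap i j k]
  have qjk : ∀ i j k, q i j k = q i k j := fun i j k => by
    simp only [hq]
    rw [pair_comm j k]
  have qne : ∀ i j k, q i j k ≠ 0 → ({i, j, k} : Finset (Fin n)) ∈ 𝒮 ∧ i ≠ j ∧ i ≠ k ∧ j ≠ k := by
    intro i j k h
    have h1 : ({i, j, k} : Finset (Fin n)) ∈ 𝒮 := by
      by_contra h2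
      apply h
      simp only [hq]
      rw [if_neg h2]
    exact ⟨h1, tri_card (hS3 _ h1).1⟩
  -- large strata
  set 𝒯 : Finset (Finset (Fin n)) := 𝒮.filter (fun S => 4 ≤ S.card) with hT4
  have hTS : ∀ S ∈ 𝒯, S ∈ 𝒮 ∧ 4 ≤ S.card := fun S hS => by
    rw [hT4, mem_filter] at hS
    exact hS
  -- the sums over the triples
  set 𝒰 : Finset (Finset (Fin n)) := 𝒮.filter (fun S => ¬ 4 ≤ S.card) with hT3
  have hUS : ∀ S ∈ 𝒰, S ∈ 𝒮 ∧ S.card = 3 := fun S hS => by
    rw [hT3, mem_filter] at hS
    have := (hS3 S hS.1).1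
    exact ⟨hS.1, by omega⟩
  have hsplit : ∀ F : Finset (Fin n) → ℝ, ∑ S ∈ 𝒮, F S = ∑ S ∈ 𝒯, F S + ∑ S ∈ 𝒰, F S :=
    fun F => (sum_filter_add_sum_filter_not 𝒮 _ F).symm
  have htri : ∀ i j, i ≠ j → ∑ S ∈ 𝒰.filter (fun S => i ∈ S ∧ j ∈ S), c S = ∑ k, q i j k := by
    intro i j hij
    simp only [hq]
    rw [← sum_filter]
    have himg : 𝒰.filter (fun S => i ∈ S ∧ j ∈ S) =
        (univ.filter (fun k => ({i, j, k} : Finset (Fin n)) ∈ 𝒮)).image (fun k => {i, j, k}) := by
      ext S
      rw [mem_filter, mem_image]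
      constructor
      · rintro ⟨hS, hi, hj⟩
        obtain ⟨hS1, hS2⟩ := hUS S hS
        have h1 : ((S.erase i).erase j).card = 1 := by
          rw [card_erase_of_mem (mem_erase.2 ⟨fun h => hij h.symm, hj⟩), card_erase_of_mem hi, hS2]
        obtain ⟨k, hk⟩ := card_eq_one.1 h1
        have h2 : ({i, j, k} : Finset (Fin n)) = S := by
          have h3 : S = insert i (insert j ((S.erase i).erase j)) := by
            rw [insert_erase (mem_erase.2 ⟨fun h => hij h.symm, hj⟩), insert_erase hi]
          rw [hk] at h3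
          exact h3.symm
        refine ⟨k, ?_, h2⟩
        rw [mem_filter]
        exact ⟨mem_univ k, h2 ▸ hS1⟩
      · rintro ⟨k, hk, rfl⟩
        rw [mem_filter] at hk
        refine ⟨?_, by simp, by simp⟩
        rw [hT3, mem_filter]
        refine ⟨hk.2, ?_⟩
        have := card_le_three (a := i) (b := j) (c := k)
        omega
    rw [himg, sum_image]
    intro k hk k' hk' he
    have hk1 := (mem_filter.1 (mem_coe.1 hk)).2
    have hk2 := (mem_filter.1 (mem_coe.1 hk')).2
    have d1 := tri_card (hS3 _ hk1).1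
    have he' : ({i, j, k} : Finset (Fin n)) = {i, j, k'} := he
    have h3 : k ∈ ({i, j, k'} : Finset (Fin n)) := by
      rw [← he']
      simp
    rw [mem_insert, mem_insert, mem_singleton] at h3
    rcases h3 with h4 | h4 | h4
    · exact absurd h4.symm d1.2.1
    · exact absurd h4.symm d1.2.2
    · exact h4
  have hN : ∀ i j, i ≠ j → α i + α j = c {i, j} + ∑ k, q i j k +
      ∑ S ∈ 𝒯.filter (fun S => i ∈ S ∧ j ∈ S), c S := by
    intro i j hij
    rw [hα i j hij, ← htri i j hij]
    have h1 : ∑ S ∈ 𝒮.filter (fun S => i ∈ S ∧ j ∈ S), c S =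
        ∑ S ∈ 𝒯.filter (fun S => i ∈ S ∧ j ∈ S), c S +
        ∑ S ∈ 𝒰.filter (fun S => i ∈ S ∧ j ∈ S), c S := by
      simp only [sum_filter (fun S : Finset (Fin n) => i ∈ S ∧ j ∈ S)]
      exact hsplit _
    rw [h1]
    ring
  have hqle : ∀ i j, i ≠ j → ∑ k, q i j k ≤ α i + α j := fun i j hij => by
    rw [hN i j hij]
    have h1 : 0 ≤ ∑ S ∈ 𝒯.filter (fun S => i ∈ S ∧ j ∈ S), c S := sum_nonneg fun S _ => h0 S
    linarith [h0 {i, j}]
  have hcle : ∀ S ∈ 𝒯, ∀ i ∈ S, ∀ j ∈ S, i ≠ j → c S ≤ α i + α j := by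
    intro S hS i hi j hj hij
    rw [hN i j hij]
    have h1 : c S ≤ ∑ S ∈ 𝒯.filter (fun S => i ∈ S ∧ j ∈ S), c S :=
      single_le_sum (f := fun S => c S) (fun S _ => h0 S) (mem_filter.2 ⟨hS, hi, hj⟩)
    have h2 : 0 ≤ ∑ k, q i j k := sum_nonneg fun k _ => q0 i j k
    linarith [h0 {i, j}]
  -- the shares
  set a : Fin n → Fin n → Fin n → ℝ := fun i j k => q i j k * (α i / (α i + α j)) with ha
  have ane : ∀ i j k, a i j k ≠ 0 → q i j k ≠ 0 := fun i j k h h' => h (by
    simp only [ha]; rw [h', zero_mul])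
  -- disjointness
  have hdis : ∀ i, ∀ S ∈ 𝒯, ∀ S' ∈ 𝒯, i ∈ S → i ∈ S' → S ≠ S' →
      Disjoint (S.erase i) (S'.erase i) := by
    intro i S hS S' hS' hi hi' hne
    rw [disjoint_left]
    intro x hx hx'
    rw [mem_erase] at hx hx'
    have h1 := hiso S (hTS S hS).1 (hTS S hS).2 S' (hTS S' hS').1 (fun h => hne h.symm)
    have h2 : ({i, x} : Finset (Fin n)) ⊆ S ∩ S' := by
      intro y hy
      rw [mem_insert, mem_singleton] at hy
      rw [mem_inter]
      rcases hy with rfl | rfl
      · exact ⟨hi, hi'⟩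
      · exact ⟨hx.2, hx'.2⟩
    have h3 := card_le_card h2
    rw [card_pair (fun h => hx.1 h.symm)] at h3
    omega
  have hrow : ∀ i, 3 * (α i * ∑ S ∈ 𝒯.filter (fun S => i ∈ S), hh K i (S.erase i)) +
      ∑ j, ∑ k, a i j k * TT K i j k ≤ 3 * (α i * GG K i) := by
    intro i
    set P : Finset (Finset (Fin n)) := (𝒯.filter (fun S => i ∈ S)).image (fun S => S.erase i) with hP
    have hPmem : ∀ U, U ∈ P ↔ ∃ S, (S ∈ 𝒯 ∧ i ∈ S) ∧ S.erase i = U := fun U => by
      rw [hP, mem_image]
      simp only [mem_filter]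
    have hsumP : ∑ U ∈ P, hh K i U = ∑ S ∈ 𝒯.filter (fun S => i ∈ S), hh K i (S.erase i) := by
      rw [hP, sum_image]
      intro S hS S' hS' he
      have h1 := (mem_filter.1 (mem_coe.1 hS)).2
      have h2 := (mem_filter.1 (mem_coe.1 hS')).2
      have he' : S.erase i = S'.erase i := he
      rw [← insert_erase h1, he', insert_erase h2]
    rw [← hsumP]
    apply row hK (by omega) i P _ _ (a i) (α i) (hα0 i)
    · intro j k
      exact mul_nonneg (q0 i j k) (div_nonneg (hα0 i) (add_nonneg (hα0 i) (hα0 j)))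
    · intro j k h
      by_contra hne
      obtain ⟨h1, h2, h3, h4⟩ := qne i j k (ane i j k hne)
      rcases h with h5 | h5 | h5 | ⟨U, hU, h5⟩
      · exact h2 h5.symm
      · exact h3 h5.symm
      · exact h4 h5
      · obtain ⟨S, ⟨hS, hiS⟩, rfl⟩ := (hPmem U).1 hU
        have h6 : S ≠ {i, j, k} := by
          rintro rfl
          have := (hTS _ hS).2
          have := card_le_three (a := i) (b := j) (c := k)
          omega
        have h7 := hiso S (hTS S hS).1 (hTS S hS).2 {i, j, k} h1 (fun h => h6 h.symm)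
        rcases h5 with h8 | h8
        · rw [mem_erase] at h8
          have h9 : ({i, j} : Finset (Fin n)) ⊆ S ∩ {i, j, k} := by
            intro y hy
            rw [mem_insert, mem_singleton] at hy
            rw [mem_inter]
            rcases hy with rfl | rfl
            · exact ⟨hiS, by simp⟩
            · exact ⟨h8.2, by simp⟩
          have h10 := card_le_card h9
          rw [card_pair h2] at h10
          omega
        · rw [mem_erase] at h8
          have h9 : ({i, k} : Finset (Fin n)) ⊆ S ∩ {i, j, k} := by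
            intro y hy
            rw [mem_insert, mem_singleton] at hy
            rw [mem_inter]
            rcases hy with rfl | rfl
            · exact ⟨hiS, by simp⟩
            · exact ⟨h8.2, by simp⟩
          have h10 := card_le_card h9
          rw [card_pair h3] at h10
          omega
    · intro j
      simp only [ha]
      rw [← sum_mul]
      by_cases hij : i = j
      · subst hij
        have : ∑ k, q i i k = 0 := sum_eq_zero fun k _ => by
          by_contra h
          exact (qne i i k h).2.1 rfl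
        rw [this, zero_mul]
        exact hα0 i
      · have h1 := hqle i j hij
        have h2 : 0 ≤ α i + α j := add_nonneg (hα0 i) (hα0 j)
        rcases h2.eq_or_lt with h | h
        · rw [← h, div_zero, mul_zero]
          exact hα0 i
        · rw [mul_div_assoc', div_le_iff₀ h, mul_comm (∑ k, q i j k)]
          exact mul_le_mul_of_nonneg_left h1 (hα0 i)
    · intro k
      by_cases hik : i = k
      · subst hik
        have : ∑ j, a i j i = 0 := sum_eq_zero fun j _ => by
          by_contra h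
          exact (qne i j i (ane i j i h)).2.2.1 rfl
        rw [this]
        linarith [hα0 i]
      · rcases (hα0 i).eq_or_lt with hi0 | hi0
        · have : ∑ j, a i j k = 0 := sum_eq_zero fun j _ => by
            simp only [ha]
            rw [← hi0, zero_div, mul_zero]
          rw [this, ← hi0]
          norm_num
        · have h1 := hbal i k hik hi0
          rw [sum_filter] at h1
          have h2 : ∑ j, a i j k = α i * ∑ j, (if ({i, j, k} : Finset (Fin n)) ∈ 𝒮 then
              c {i, j, k} / (α i + α j) else 0) := by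
            rw [mul_sum]
            apply sum_congr rfl
            intro j _
            simp only [ha, hq]
            split_ifs
            · ring
            · ring
          rw [h2]
          have := mul_le_mul_of_nonneg_left h1 hi0.le
          linarith
    · intro U hU
      obtain ⟨S, ⟨hS, hiS⟩, rfl⟩ := (hPmem U).1 hU
      refine ⟨?_, notMem_erase i S⟩
      rw [← card_pos, card_erase_of_mem hiS]
      have := (hTS S hS).2
      omega
    · intro U hU W hW hne
      obtain ⟨S, ⟨hS, hiS⟩, rfl⟩ := (hPmem U).1 hU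
      obtain ⟨S', ⟨hS', hiS'⟩, rfl⟩ := (hPmem W).1 hW
      exact hdis i S hS S' hS' hiS hiS' (fun h => hne (by rw [h]))
  have hX : ∑ i, ∑ j, ∑ k, q i j k * TT K i j k = 2 * ∑ i, ∑ j, ∑ k, a i j k * TT K i j k := by
    have h1 : ∑ i, ∑ j, ∑ k, a i j k * TT K i j k = ∑ i, ∑ j, ∑ k, a j i k * TT K i j k := by
      rw [sum_comm]
      apply sum_congr rfl
      intro i _
      apply sum_congr rfl
      intro j _
      apply sum_congr rfl
      intro k _
      rw [TT_swap]
    have h2 : ∑ i, ∑ j, ∑ k, q i j k * TT K i j k =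
        ∑ i, ∑ j, ∑ k, (a i j k * TT K i j k + a j i k * TT K i j k) := by
      apply sum_congr rfl
      intro i _
      apply sum_congr rfl
      intro j _
      apply sum_congr rfl
      intro k _
      rw [← add_mul]
      congr 1
      simp only [ha]
      rw [← qij i j k]
      rcases (q0 i j k).eq_or_lt with h | h
      · rw [← h]
        ring
      · have hij : i ≠ j := (qne i j k h.ne').2.1
        have pk : 0 < α i + α j := by
          refine lt_of_lt_of_le ?_ (hqle i j hij)
          exact lt_of_lt_of_le h (single_le_sum (f := fun k => q i j k)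
            (fun k _ => q0 i j k) (mem_univ k))
        rw [add_comm (α j) (α i)]
        field_simp
    rw [h2]
    simp only [sum_add_distrib]
    rw [← h1]
    ring
  -- sum of the rows
  have hsumrow : 3 * ∑ S ∈ 𝒯, ∑ i ∈ S, α i * hh K i (S.erase i) +
      ∑ i, ∑ j, ∑ k, a i j k * TT K i j k ≤ 3 * ∑ i, α i * GG K i := by
    have h1 : ∑ i, (3 * (α i * ∑ S ∈ 𝒯.filter (fun S => i ∈ S), hh K i (S.erase i)) +
        ∑ j, ∑ k, a i j k * TT K i j k) ≤ ∑ i, 3 * (α i * GG K i) := sum_le_sum fun i _ => hrow i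
    rw [sum_add_distrib, ← mul_sum, ← mul_sum] at h1
    have h2 : ∑ i, α i * ∑ S ∈ 𝒯.filter (fun S => i ∈ S), hh K i (S.erase i) =
        ∑ S ∈ 𝒯, ∑ i ∈ S, α i * hh K i (S.erase i) := by
      have h3 : ∀ i, α i * ∑ S ∈ 𝒯.filter (fun S => i ∈ S), hh K i (S.erase i) =
          ∑ S ∈ 𝒯, (if i ∈ S then α i * hh K i (S.erase i) else 0) := by
        intro i
        rw [mul_sum, sum_filter]
      simp only [h3]
      rw [sum_comm]
      apply sum_congr rfl
      intro S _
      rw [← sum_filter]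
      apply sum_congr _ (fun _ _ => rfl)
      ext i
      simp
    rw [h2] at h1
    exact h1
  have hloc : ∑ S ∈ 𝒯, c S * VV K S ≤ ∑ S ∈ 𝒯, ∑ i ∈ S, α i * hh K i (S.erase i) := by
    apply sum_le_sum
    intro S hS
    apply loc hK _ _ α (fun i _ => hα0 i) (c S) (h0 S) (hcle S hS)
    · intro h
      have := (hS3 S (hTS S hS).1).2
      rw [h, compl_univ, card_empty] at this
      omega
    · rw [← card_pos]
      have := (hTS S hS).2
      omega
  -- the pairs
  have hP := sum_pairs (univ : Finset (Fin n)) (fun S => c S * K S)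
  have hpair : ∑ i, ∑ j ∈ univ.erase i, c {i, j} * K {i, j} =
      2 * ∑ i, α i * GG K i - ∑ i, ∑ j, ∑ k, q i j k * K {i, j} -
        2 * ∑ S ∈ 𝒯, c S * ∑ T ∈ powersetCard 2 S, K T := by
    have h1 : ∀ i, ∑ j ∈ univ.erase i, c {i, j} * K {i, j} =
        (∑ j ∈ univ.erase i, α i * K {i, j} + ∑ j ∈ univ.erase i, α j * K {i, j}) -
          ∑ j ∈ univ.erase i, (∑ k, q i j k) * K {i, j} -
          ∑ j ∈ univ.erase i, (∑ S ∈ 𝒯.filter (fun S => i ∈ S ∧ j ∈ S), c S) * K {i, j} := by
      intro i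
      rw [← sum_add_distrib, ← sum_sub_distrib, ← sum_sub_distrib]
      apply sum_congr rfl
      intro j hj
      rw [mem_erase] at hj
      have := hN i j (fun e => hj.1 e.symm)
      have h2 : c {i, j} = α i + α j - ∑ k, q i j k -
        ∑ S ∈ 𝒯.filter (fun S => i ∈ S ∧ j ∈ S), c S := by linarith
      rw [h2]
      ring
    have h3 : ∀ (G : Fin n → Fin n → ℝ), ∑ i, ∑ j ∈ univ.erase i, G i j =
        ∑ i, ∑ j, (if i = j then 0 else G i j) := by
      intro G
      apply sum_congr rfl
      intro i _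
      rw [← sum_erase_add (univ : Finset (Fin n)) (fun j => if i = j then 0 else G i j)
        (mem_univ i)]
      rw [if_pos rfl, add_zero]
      apply sum_congr rfl
      intro j hj
      rw [mem_erase] at hj
      rw [if_neg (fun e => hj.1 e.symm)]
    have h2 : ∑ i, ∑ j ∈ univ.erase i, α j * K {i, j} =
        ∑ i, ∑ j ∈ univ.erase i, α i * K {i, j} := by
      rw [h3, h3, sum_comm]
      apply sum_congr rfl
      intro i _
      apply sum_congr rfl
      intro j _
      by_cases h : i = j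
      · rw [if_pos h, if_pos h.symm]
      · rw [if_neg h, if_neg (fun e => h e.symm), pair_comm]
    have h4 : ∀ i, ∑ j ∈ univ.erase i, (∑ k, q i j k) * K {i, j} =
        ∑ j, ∑ k, q i j k * K {i, j} := by
      intro i
      rw [← sum_erase_add (univ : Finset (Fin n)) (fun j => ∑ k, q i j k * K {i, j}) (mem_univ i)]
      have e1 : ∑ k, q i i k * K {i, i} = 0 := by
        apply sum_eq_zero
        intro k _
        have : q i i k = 0 := by
          by_contra h
          exact (qne i i k h).2.1 rfl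
        rw [this, zero_mul]
      rw [e1, add_zero]
      apply sum_congr rfl
      intro j _
      rw [sum_mul]
    have h6 : ∑ i, ∑ j ∈ univ.erase i,
        (∑ S ∈ 𝒯.filter (fun S => i ∈ S ∧ j ∈ S), c S) * K {i, j} =
        2 * ∑ S ∈ 𝒯, c S * ∑ T ∈ powersetCard 2 S, K T := by
      have h7 : ∀ S ∈ 𝒯, 2 * (c S * ∑ T ∈ powersetCard 2 S, K T) =
          ∑ i, ∑ j ∈ univ.erase i, (if i ∈ S ∧ j ∈ S then c S * K {i, j} else 0) := by
        intro S _
        have h8 := sum_pairs S K
        have h9 : 2 * (c S * ∑ T ∈ powersetCard 2 S, K T) =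
            c S * ∑ i ∈ S, ∑ j ∈ S.erase i, K {i, j} := by
          rw [h8]
          ring
        rw [h9, mul_sum]
        have h10 : ∀ i ∈ S, c S * ∑ j ∈ S.erase i, K {i, j} =
            ∑ j ∈ univ.erase i, (if i ∈ S ∧ j ∈ S then c S * K {i, j} else 0) := by
          intro i hi
          rw [mul_sum, ← sum_filter]
          apply sum_congr _ (fun _ _ => rfl)
          ext j
          rw [mem_filter, mem_erase, mem_erase]
          constructor
          · rintro ⟨h11, h12⟩
            exact ⟨⟨h11, mem_univ j⟩, hi, h12⟩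
          · rintro ⟨⟨h11, _⟩, _, h12⟩
            exact ⟨h11, h12⟩
        rw [sum_congr rfl h10]
        apply sum_subset (subset_univ S)
        intro i _ hi
        apply sum_eq_zero
        intro j _
        rw [if_neg]
        rintro ⟨h11, _⟩
        exact hi h11
      rw [mul_sum, sum_congr rfl h7, sum_comm]
      apply sum_congr rfl
      intro i _
      rw [sum_comm]
      apply sum_congr rfl
      intro j _
      rw [sum_filter, sum_mul]
      apply sum_congr rfl
      intro S _
      split_ifs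
      · rfl
      · rw [zero_mul]
    have h5 : ∀ i, ∑ j ∈ univ.erase i, α i * K {i, j} = α i * GG K i := by
      intro i
      unfold GG
      rw [mul_sum]
    simp only [h1, sum_sub_distrib, sum_add_distrib, h4]
    rw [h2, h6]
    simp only [h5]
    ring
  -- symmetrization of the last sum
  have hsym : 3 * ∑ i, ∑ j, ∑ k, q i j k * K {i, j} - ∑ i, ∑ j, ∑ k, q i j k * K {i, j, k} =
      ∑ i, ∑ j, ∑ k, q i j k * TT K i j k := by
    have h1 : ∑ i, ∑ j, ∑ k, q i j k * K {i, j} = ∑ i, ∑ j, ∑ k, q i j k * K {i, k} := by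
      apply sum_congr rfl
      intro i _
      rw [sum_comm]
      apply sum_congr rfl
      intro j _
      apply sum_congr rfl
      intro k _
      rw [qjk]
    have h2 : ∑ i, ∑ j, ∑ k, q i j k * K {i, k} = ∑ i, ∑ j, ∑ k, q i j k * K {j, k} := by
      rw [sum_comm]
      apply sum_congr rfl
      intro i _
      apply sum_congr rfl
      intro j _
      apply sum_congr rfl
      intro k _
      rw [qij]
    have h3 : ∑ i, ∑ j, ∑ k, q i j k * TT K i j k =
        ∑ i, ∑ j, ∑ k, q i j k * K {i, j} + ∑ i, ∑ j, ∑ k, q i j k * K {i, k} +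
        ∑ i, ∑ j, ∑ k, q i j k * K {j, k} - ∑ i, ∑ j, ∑ k, q i j k * K {i, j, k} := by
      simp only [← sum_add_distrib, ← sum_sub_distrib]
      apply sum_congr rfl
      intro i _
      apply sum_congr rfl
      intro j _
      apply sum_congr rfl
      intro k _
      unfold TT
      ring
    rw [h3, ← h2, ← h1]
    ring
  -- the triples
  have hT := sum_triples (univ : Finset (Fin n)) (fun S => if S ∈ 𝒮 then c S * K S else 0)
  have hT1 : ∑ i, ∑ j ∈ univ.erase i, ∑ k ∈ (univ.erase i).erase j,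
      (if ({i, j, k} : Finset (Fin n)) ∈ 𝒮 then c {i, j, k} * K {i, j, k} else 0) =
      ∑ i, ∑ j, ∑ k, q i j k * K {i, j, k} := by
    have hz : ∀ i j k, ¬ (i ≠ j ∧ i ≠ k ∧ j ≠ k) → q i j k * K {i, j, k} = 0 := by
      intro i j k h
      have : q i j k = 0 := by
        by_contra h1
        exact h (qne i j k h1).2
      rw [this, zero_mul]
    apply sum_congr rfl
    intro i _
    rw [← sum_erase_add (univ : Finset (Fin n)) _ (mem_univ i)]
    have e1 : ∑ k, q i i k * K {i, i, k} = 0 :=
      sum_eq_zero fun k _ => hz i i k (by tauto)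
    rw [e1, add_zero]
    apply sum_congr rfl
    intro j hj
    rw [mem_erase] at hj
    rw [← sum_erase_add (univ : Finset (Fin n)) _ (mem_univ i), hz i j i (by tauto), add_zero]
    have hji : j ∈ univ.erase i := mem_erase.2 ⟨hj.1, mem_univ j⟩
    rw [← sum_erase_add _ _ hji, hz i j j (by tauto), add_zero]
    apply sum_congr rfl
    intro k _
    simp only [hq]
    split_ifs
    · rfl
    · rw [zero_mul]
  have hT2 : ∑ S ∈ powersetCard 3 univ, (if S ∈ 𝒮 then c S * K S else 0) =
      ∑ S ∈ 𝒰, c S * K S := by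
    rw [← sum_filter]
    apply sum_congr _ (fun _ _ => rfl)
    ext S
    rw [mem_filter, mem_powersetCard]
    constructor
    · rintro ⟨⟨_, h1⟩, h2⟩
      rw [hT3, mem_filter]
      exact ⟨h2, by omega⟩
    · intro h
      exact ⟨⟨subset_univ S, (hUS S h).2⟩, (hUS S h).1⟩
  rw [hT1, hT2] at hT
  rw [hpair] at hP
  have hV : ∑ S ∈ 𝒯, c S * VV K S =
      ∑ S ∈ 𝒯, c S * ∑ T ∈ powersetCard 2 S, K T - ∑ S ∈ 𝒯, c S * K S := by
    rw [← sum_sub_distrib]
    apply sum_congr rfl
    intro S _
    unfold VV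
    ring
  have e : 2 * ∑ S ∈ powersetCard 2 univ, c S * K S + 2 * ∑ S ∈ 𝒮, c S * K S =
      2 * ∑ i, α i * GG K i - 1 / 3 * ∑ i, ∑ j, ∑ k, q i j k * TT K i j k -
        2 * ∑ S ∈ 𝒯, c S * VV K S := by
    rw [hsplit, hV]
    linarith
  rw [e, hX]
  linarith

end Pool.Agent.Helper39.CB
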