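import Pool.Agent.Helper88.CC.Plane
import Pool.Agent.Helper39.CB.Col

/-!
# Project CB: packing inequalities of an F-nef class
-/

set_option autoImplicit false

namespace Pool.Agent.Helper39.CB

open Finset Pool.Agent.Helper88.CC

variable {n : ℕ}

/-- `K_ij + K_ik + K_jk - K_ijk` -/
def TT (K : Finset (Fin n) → ℝ) (i j k : Fin n) : ℝ :=
  K {i, j} + K {i, k} + K {j, k} - K {i, j, k}

/-- `∑_j K_ij` -/
def GG (K : Finset (Fin n) → ℝ) (i : Fin n) : ℝ := ∑ j ∈ univ.erase i, K {i, j}

/-- the superadditive function attached to the point `i` -/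
def hh (K : Finset (Fin n) → ℝ) (i : Fin n) (U : Finset (Fin n)) : ℝ :=
  K U - K (insert i U) + ∑ j ∈ U, K {i, j}

/-- minus the degree on the class of the stratum `S` -/
def VV (K : Finset (Fin n) → ℝ) (S : Finset (Fin n)) : ℝ := ∑ T ∈ powersetCard 2 S, K T - K S

theorem hh_singleton {K : Finset (Fin n) → ℝ} (hK : FNef K) (i j : Fin n) : hh K i {j} = 0 := by
  unfold hh
  rw [sum_singleton, hK.singleton]
  ring

theorem hh_pair {K : Finset (Fin n) → ℝ} {i j k : Fin n} (hjk : j ≠ k) :
    hh K i {j, k} = TT K i j k := by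
  unfold hh TT
  rw [sum_pair hjk]
  ring

/-- `h` increases when a point is added -/
theorem hh_insert {K : Finset (Fin n) → ℝ} (hK : FNef K) {i j : Fin n} {U : Finset (Fin n)}
    (hU : U.Nonempty) (hij : i ≠ j) (hi : i ∉ U) (hj : j ∉ U) (hne : insert i (insert j U) ≠ univ) :
    hh K i U ≤ hh K i (insert j U) := by
  have h := hK.third {i} U {j} (singleton_nonempty i) hU (singleton_nonempty j)
    (by rwa [disjoint_singleton_left]) (by simpa using hij) (by rwa [disjoint_singleton_right]) (by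
      intro h
      apply hne
      rw [← h]
      ext x
      simp only [mem_insert, mem_union, mem_singleton]
      tauto)
  rw [hK.singleton, hK.singleton] at h
  have e1 : ({i} ∪ U : Finset (Fin n)) = insert i U := rfl
  have e2 : ({i} ∪ {j} : Finset (Fin n)) = {i, j} := rfl
  have e3 : (U ∪ {j} : Finset (Fin n)) = insert j U := by
    rw [union_comm]
    rfl
  have e4 : ({i} ∪ U ∪ {j} : Finset (Fin n)) = insert i (insert j U) := by
    ext x
    simp only [mem_insert, mem_union, mem_singleton]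
    tauto
  rw [e4, e1, e2, e3] at h
  unfold hh
  rw [sum_insert hj]
  linarith

/-- `h` is nonnegative -/
theorem hh_nonneg {K : Finset (Fin n) → ℝ} (hK : FNef K) (i : Fin n) (U : Finset (Fin n)) :
    i ∉ U → insert i U ≠ univ → 0 ≤ hh K i U := by
  induction U using Finset.induction_on with
  | empty =>
    intro _ _
    unfold hh
    rw [hK.empty, sum_empty]
    have e : (insert i ∅ : Finset (Fin n)) = {i} := rfl
    rw [e, hK.singleton]
    norm_num
  | insert j U hj ih =>
    intro hi hne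
    have hi' : i ∉ U := fun h => hi (mem_insert_of_mem h)
    have hij : i ≠ j := fun h => hi (h ▸ mem_insert_self j U)
    rcases U.eq_empty_or_nonempty with h | h
    · subst h
      have e : (insert j ∅ : Finset (Fin n)) = {j} := rfl
      rw [e, hh_singleton hK]
    · refine (ih hi' ?_).trans (hh_insert hK h hij hi' hj hne)
      intro h2
      have h3 : j ∈ insert i U := h2 ▸ mem_univ j
      rw [mem_insert] at h3
      rcases h3 with h4 | h4
      · exact hij h4.symm
      · exact hj h4

theorem TT_nonneg (hn : 4 ≤ n) {K : Finset (Fin n) → ℝ} (hK : FNef K) {i j k : Fin n} (hij : i ≠ j)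
    (hik : i ≠ k) (hjk : j ≠ k) : 0 ≤ TT K i j k := by
  rw [← hh_pair hjk]
  apply hh_nonneg hK
  · rw [mem_insert, mem_singleton]
    tauto
  · intro h
    have h1 : (insert i {j, k} : Finset (Fin n)).card = n := by
      rw [h, card_univ, Fintype.card_fin]
    have h2 := card_insert_le i ({j, k} : Finset (Fin n))
    have h3 := card_insert_le j ({k} : Finset (Fin n))
    rw [card_singleton] at h3
    omega

/-- **Packing inequality.** -/
theorem pack {K : Finset (Fin n) → ℝ} (hK : FNef K) (hn : 2 ≤ n) (i : Fin n)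
    (P : Finset (Finset (Fin n))) (h1 : ∀ U ∈ P, U.Nonempty ∧ i ∉ U)
    (h2 : ∀ U ∈ P, ∀ W ∈ P, U ≠ W → Disjoint U W) :
    ∑ U ∈ P, hh K i U ≤ GG K i := by
  classical
  -- the remaining points
  set R : Finset (Fin n) := (univ.erase i).filter (fun j => ∀ U ∈ P, j ∉ U) with hR
  set Q : Finset (Finset (Fin n)) := R.image (fun j => {j}) with hQ
  have hQmem : ∀ U, U ∈ Q ↔ ∃ j, (j ≠ i ∧ ∀ W ∈ P, j ∉ W) ∧ {j} = U := by
    intro U
    rw [hQ, mem_image]
    constructor
    · rintro ⟨j, hj, he⟩
      rw [hR, mem_filter, mem_erase] at hj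
      exact ⟨j, ⟨hj.1.1, hj.2⟩, he⟩
    · rintro ⟨j, ⟨hj1, hj2⟩, he⟩
      exact ⟨j, by rw [hR, mem_filter, mem_erase]; exact ⟨⟨hj1, mem_univ j⟩, hj2⟩, he⟩
  have hPQ : Disjoint P Q := by
    rw [disjoint_left]
    intro U hU hU'
    obtain ⟨j, ⟨_, hj⟩, he⟩ := (hQmem U).1 hU'
    exact hj U hU (he ▸ mem_singleton_self j)
  have hun : (P ∪ Q).biUnion id = univ.erase i := by
    ext x
    rw [mem_biUnion, mem_erase]
    constructor
    · rintro ⟨U, hU, hx⟩
      refine ⟨?_, mem_univ x⟩
      rintro rfl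
      rcases mem_union.1 hU with h | h
      · exact (h1 U h).2 hx
      · obtain ⟨j, ⟨hj, _⟩, he⟩ := (hQmem U).1 h
        rw [← he] at hx
        exact hj (mem_singleton.1 hx).symm
    · rintro ⟨hx, _⟩
      by_cases h : ∃ U ∈ P, x ∈ U
      · obtain ⟨U, hU, hxU⟩ := h
        exact ⟨U, mem_union_left _ hU, hxU⟩
      · push Not at h
        exact ⟨{x}, mem_union_right _ ((hQmem {x}).2 ⟨x, ⟨hx, h⟩, rfl⟩), mem_singleton_self x⟩
  have hne : (P ∪ Q).Nonempty := by
    rw [nonempty_iff_ne_empty]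
    intro he
    rw [he, biUnion_empty] at hun
    have h3 : (univ.erase i : Finset (Fin n)).card = 0 := by rw [← hun, card_empty]
    rw [card_erase_of_mem (mem_univ i), card_univ, Fintype.card_fin] at h3
    omega
  have hmemPQ : ∀ U ∈ P ∪ Q, U.Nonempty ∧ i ∉ U := by
    intro U hU
    rcases mem_union.1 hU with h | h
    · exact h1 U h
    · obtain ⟨j, ⟨hj, _⟩, he⟩ := (hQmem U).1 h
      rw [← he]
      exact ⟨singleton_nonempty j, by rw [mem_singleton]; exact fun h => hj h.symm⟩
  have h := sub_family hK {i} (singleton_nonempty i) (P ∪ Q) hne id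
    (fun U hU => (hmemPQ U hU).1)
    (fun U hU => by rw [disjoint_singleton_left]; exact (hmemPQ U hU).2)
    (fun U hU W hW hne' => by
      rcases mem_union.1 hU with h | h <;> rcases mem_union.1 hW with h' | h'
      · exact h2 U h W h' hne'
      · obtain ⟨j, ⟨_, hj⟩, he⟩ := (hQmem W).1 h'
        show Disjoint U W
        rw [← he, disjoint_singleton_right]
        exact hj U h
      · obtain ⟨j, ⟨_, hj⟩, he⟩ := (hQmem U).1 h
        show Disjoint U W
        rw [← he, disjoint_singleton_left]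
        exact hj W h'
      · obtain ⟨j, _, he⟩ := (hQmem U).1 h
        obtain ⟨k, _, he'⟩ := (hQmem W).1 h'
        show Disjoint U W
        rw [← he, ← he', disjoint_singleton]
        rintro rfl
        exact hne' (he.symm.trans he'))
  have e2 : ({i} ∪ univ.erase i : Finset (Fin n)) = univ := by
    rw [← insert_eq, insert_erase (mem_univ i)]
  rw [hun, e2, hK.univ, hK.cosingleton, hK.singleton] at h
  have hterm : ∀ U ∈ P ∪ Q, K ({i} ∪ id U) - K (id U) - 0 = ∑ j ∈ U, K {i, j} - hh K i U := by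
    intro U _
    unfold hh
    have e3 : ({i} ∪ id U : Finset (Fin n)) = insert i U := rfl
    rw [e3]
    simp only [id]
    ring
  rw [sum_congr rfl hterm, sum_sub_distrib] at h
  have e6 : GG K i = ∑ U ∈ P ∪ Q, ∑ j ∈ U, K {i, j} := by
    unfold GG
    rw [← hun, sum_biUnion]
    · rfl
    · intro U hU W hW hne'
      show Disjoint U W
      rcases mem_union.1 (mem_coe.1 hU) with h | h <;>
        rcases mem_union.1 (mem_coe.1 hW) with h' | h'
      · exact h2 U h W h' hne'
      · obtain ⟨j, ⟨_, hj⟩, he⟩ := (hQmem W).1 h'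
        rw [← he, disjoint_singleton_right]
        exact hj U h
      · obtain ⟨j, ⟨_, hj⟩, he⟩ := (hQmem U).1 h
        rw [← he, disjoint_singleton_left]
        exact hj W h'
      · obtain ⟨j, _, he⟩ := (hQmem U).1 h
        obtain ⟨k, _, he'⟩ := (hQmem W).1 h'
        rw [← he, ← he', disjoint_singleton]
        rintro rfl
        exact hne' (he.symm.trans he')
  have e7 : ∑ U ∈ P ∪ Q, hh K i U = ∑ U ∈ P, hh K i U := by
    rw [sum_union hPQ]
    have : ∑ U ∈ Q, hh K i U = 0 := by
      apply sum_eq_zero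
      intro U hU
      obtain ⟨j, _, he⟩ := (hQmem U).1 hU
      rw [← he, hh_singleton hK]
    rw [this, add_zero]
  rw [← e6, e7] at h
  linarith

/-- **Packing by large blocks and a matching.** -/
theorem pack_mat {K : Finset (Fin n) → ℝ} (hK : FNef K) (hn : 2 ≤ n) (i : Fin n)
    (P : Finset (Finset (Fin n))) (h1 : ∀ U ∈ P, U.Nonempty ∧ i ∉ U)
    (h2 : ∀ U ∈ P, ∀ W ∈ P, U ≠ W → Disjoint U W) (E : Finset (Fin n)) (f : Fin n → Fin n)
    (hi : i ∉ E) (hf : ∀ j ∈ E, f j ≠ j ∧ f j ≠ i)
    (hE : ∀ j ∈ E, ∀ j' ∈ E, j ≠ j' → j ≠ f j' ∧ f j ≠ f j')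
    (hP : ∀ U ∈ P, ∀ j ∈ E, j ∉ U ∧ f j ∉ U) :
    ∑ U ∈ P, hh K i U + ∑ j ∈ E, TT K i j (f j) ≤ GG K i := by
  classical
  set Q : Finset (Finset (Fin n)) := E.image (fun j => {j, f j}) with hQ
  have hQmem : ∀ U, U ∈ Q ↔ ∃ j ∈ E, {j, f j} = U := fun U => by rw [hQ, mem_image]
  have hdisj : ∀ j ∈ E, ∀ j' ∈ E, j ≠ j' → Disjoint ({j, f j} : Finset (Fin n)) {j', f j'} := by
    intro j hj j' hj' hne
    rw [disjoint_left]
    intro x hx hx'
    rw [mem_insert, mem_singleton] at hx hx'
    have a1 := hE j hj j' hj' hne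
    have a2 := hE j' hj' j hj (fun h => hne h.symm)
    rcases hx with h3 | h3 <;> rcases hx' with h4 | h4
    · exact hne (h3.symm.trans h4)
    · exact a1.1 (h3.symm.trans h4)
    · exact a2.1 (h4.symm.trans h3)
    · exact a1.2 (h3.symm.trans h4)
  have hPQ : Disjoint P Q := by
    rw [disjoint_left]
    intro U hU hU'
    obtain ⟨j, hj, he⟩ := (hQmem U).1 hU'
    exact (hP U hU j hj).1 (he ▸ mem_insert_self j _)
  have hPQd : ∀ U ∈ P, ∀ j ∈ E, Disjoint U {j, f j} := by
    intro U hU j hj
    rw [disjoint_left]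
    intro x hx hx'
    rw [mem_insert, mem_singleton] at hx'
    rcases hx' with rfl | rfl
    · exact (hP U hU _ hj).1 hx
    · exact (hP U hU j hj).2 hx
  have h := pack hK hn i (P ∪ Q) (fun U hU => by
      rcases mem_union.1 hU with h | h
      · exact h1 U h
      · obtain ⟨j, hj, he⟩ := (hQmem U).1 h
        rw [← he]
        refine ⟨insert_nonempty j _, ?_⟩
        rw [mem_insert, mem_singleton]
        rintro (h3 | h3)
        · exact hi (h3 ▸ hj)
        · exact (hf j hj).2 h3.symm)
    (fun U hU W hW hne => by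
      rcases mem_union.1 hU with h | h <;> rcases mem_union.1 hW with h' | h'
      · exact h2 U h W h' hne
      · obtain ⟨j, hj, he⟩ := (hQmem W).1 h'
        rw [← he]
        exact hPQd U h j hj
      · obtain ⟨j, hj, he⟩ := (hQmem U).1 h
        rw [← he]
        exact (hPQd W h' j hj).symm
      · obtain ⟨j, hj, he⟩ := (hQmem U).1 h
        obtain ⟨k, hk, he'⟩ := (hQmem W).1 h'
        rw [← he, ← he']
        apply hdisj j hj k hk
        rintro rfl
        exact hne (he.symm.trans he'))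
  rw [sum_union hPQ, hQ, sum_image] at h
  · have e : ∑ j ∈ E, hh K i {j, f j} = ∑ j ∈ E, TT K i j (f j) := by
      apply sum_congr rfl
      intro j hj
      exact hh_pair (fun h => (hf j hj).1 h.symm)
    rw [e] at h
    exact h
  · intro j hj k hk he
    by_contra hne
    have h3 := hdisj j hj k hk hne
    have he' : ({j, f j} : Finset (Fin n)) = {k, f k} := he
    rw [he', disjoint_self] at h3
    exact (insert_ne_empty k _) h3

/-- **Functional graph inequality.** -/
theorem fun_ineq {K : Finset (Fin n) → ℝ} (hK : FNef K) (hn : 2 ≤ n) (i : Fin n)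
    (P : Finset (Finset (Fin n))) (h1 : ∀ U ∈ P, U.Nonempty ∧ i ∉ U)
    (h2 : ∀ U ∈ P, ∀ W ∈ P, U ≠ W → Disjoint U W) (f : Fin n → Fin n)
    (hdeg : ∀ k, (univ.filter (fun j => j ≠ k ∧ f j = k)).card ≤ 2)
    (bad : Fin n → Prop) [DecidablePred bad]
    (hbad : ∀ j, (j = i ∨ f j = i ∨ f j = j ∨ ∃ U ∈ P, j ∈ U ∨ f j ∈ U) → bad j) :
    3 * ∑ U ∈ P, hh K i U + ∑ j, (if bad j then 0 else TT K i j (f j)) ≤ 3 * GG K i := by
  classical
  set g : Fin n → Fin n := fun j => if bad j then j else f j with hg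
  have hgdeg : ∀ k, (univ.filter (fun j => j ≠ k ∧ g j = k)).card ≤ 2 := by
    intro k
    refine le_trans (card_le_card ?_) (hdeg k)
    intro j hj
    rw [mem_filter] at hj ⊢
    refine ⟨mem_univ j, hj.2.1, ?_⟩
    have h1 := hj.2.2
    simp only [hg] at h1
    split_ifs at h1 with h2
    · exact absurd h1 hj.2.1
    · exact h1
  obtain ⟨χ, c1, c2⟩ := col g hgdeg
  set E : Fin 3 → Finset (Fin n) := fun s => univ.filter (fun j => ¬ bad j ∧ χ j = s) with hE
  have hgf : ∀ j, ¬ bad j → g j = f j ∧ g j ≠ j := by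
    intro j hj
    have h3 : g j = f j := by
      simp only [hg]
      rw [if_neg hj]
    refine ⟨h3, ?_⟩
    rw [h3]
    intro h4
    exact hj (hbad j (by tauto))
  have hs : ∀ s, ∑ U ∈ P, hh K i U + ∑ j ∈ E s, TT K i j (f j) ≤ GG K i := by
    intro s
    apply pack_mat hK hn i P h1 h2 (E s) f
    · intro h
      exact (mem_filter.1 h).2.1 (hbad i (Or.inl rfl))
    · intro j hj
      have h3 := (mem_filter.1 hj).2.1
      exact ⟨fun h => h3 (hbad j (by tauto)), fun h => h3 (hbad j (by tauto))⟩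
    · intro j hj j' hj' hjj'
      have h3 := (mem_filter.1 hj).2
      have h4 := (mem_filter.1 hj').2
      obtain ⟨a1, a2⟩ := hgf j h3.1
      obtain ⟨b1, b2⟩ := hgf j' h4.1
      refine ⟨?_, ?_⟩
      · intro he
        have h5 := c1 j' b2
        rw [b1, ← he, h3.2, h4.2] at h5
        exact h5 rfl
      · intro he
        have h5 := c2 j j' hjj' a2 b2 (by rw [a1, b1, he])
        rw [h3.2, h4.2] at h5
        exact h5 rfl
    · intro U hU j hj
      have h3 := (mem_filter.1 hj).2.1
      exact ⟨fun h => h3 (hbad j (Or.inr (Or.inr (Or.inr ⟨U, hU, Or.inl h⟩)))),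
        fun h => h3 (hbad j (Or.inr (Or.inr (Or.inr ⟨U, hU, Or.inr h⟩))))⟩
  have hsum : ∑ j, (if bad j then 0 else TT K i j (f j)) =
      ∑ s : Fin 3, ∑ j ∈ E s, TT K i j (f j) := by
    simp only [hE, sum_filter]
    rw [sum_comm]
    apply sum_congr rfl
    intro j _
    by_cases h : bad j
    · rw [if_pos h]
      symm
      apply sum_eq_zero
      intro s _
      rw [if_neg]
      tauto
    · rw [if_neg h, sum_eq_single (χ j)]
      · rw [if_pos ⟨h, rfl⟩]
      · intro s _ hne
        rw [if_neg]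
        rintro ⟨_, he⟩
        exact hne he.symm
      · intro h'
        exact absurd (mem_univ _) h'
  rw [hsum, Fin.sum_univ_three]
  linarith [hs 0, hs 1, hs 2]

end Pool.Agent.Helper39.CB
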